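import Pool.Agent.Run7.h433.Nak.Iface

/-! Piece FEX of the project counterexample to the Nakayama conjecture (helper433). -/

set_option autoImplicit false

namespace Run7.h329.Nak.FEX

open Run7.h433.Nak

section general

variable {V V' : Type} [AddCommGroup V] [Module ℚ V] [AddCommGroup V'] [Module ℚ V']
  {S' : SL V'} {S : SL V} {P Q : V' →ₗ[ℚ] V}

theorem Y3_mem (hG : S_GRD) (P Q : V' →ₗ[ℚ] V) (γ : ℤ) (n : ℕ) (x : W3 V') (hx : x ∈ Cg V' γ n) :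
    Y3 P Q x ∈ Cg V (γ + 3) n := by
  obtain ⟨h1, ⟨h2, h3⟩, ⟨h4, h5⟩⟩ := hx
  have g := hG V'
  refine ⟨g.Y V P Q _ _ _ h1, ⟨?_, fun h => ?_⟩, ⟨?_, fun h => ?_⟩⟩
  · have := g.Y V P Q _ _ _ h2
    rwa [show γ + 2 + 3 = γ + 3 + 2 by ring] at this
  · show oY P Q x.2.1 = 0
    rw [h3 h, map_zero]
  · have := g.Y V P Q _ _ _ h4
    rwa [show γ + 4 + 3 = γ + 3 + 4 by ring] at this
  · show oY P Q x.2.2 = 0
    rw [h5 h, map_zero]

theorem Y3_mem' (hG : S_GRD) (P Q : V' →ₗ[ℚ] V) (n : ℕ) (x : W3 V') (hx : x ∈ Cg V' (-3) n) :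
    Y3 P Q x ∈ Cg V 0 n := Y3_mem hG P Q (-3) n x hx

theorem Y3_dC (h : OpsY S' S P Q) (n : ℕ) (x : W3 V') :
    Y3 P Q (dC S' n x) = dC S n (Y3 P Q x) := by
  rw [dC_apply, dC_apply, Y3_apply, Y3_apply]
  refine Prod.ext ?_ (Prod.ext ?_ ?_)
  · show oY P Q (oa S' x.1 + oz S' x.2.1 + (n : ℚ) • ok x.2.2) =
      oa S (oY P Q x.1) + oz S (oY P Q x.2.1) + (n : ℚ) • ok (oY P Q x.2.2)
    rw [map_add, map_add, map_smul, h.Ya, h.Yz, h.Yk]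
  · show oY P Q (if n = 0 then 0 else oa S' x.2.1 + oz S' x.2.2) =
      if n = 0 then 0 else oa S (oY P Q x.2.1) + oz S (oY P Q x.2.2)
    split_ifs
    · exact map_zero _
    · rw [map_add, h.Ya, h.Yz]
  · show oY P Q (if n < 2 then 0 else oa S' x.2.2) = if n < 2 then 0 else oa S (oY P Q x.2.2)
    split_ifs
    · exact map_zero _
    · rw [h.Ya]

theorem Y_q (h : OpsY S' S P Q) (x : W V') : oY P Q (qS S' x) = qS S (oY P Q x) := by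
  unfold qS
  simp only [map_sub, h.Ya, h.Yz, h.YD, h.YE]

theorem Y_r (h : OpsY S' S P Q) (x : W V') : oY P Q (rS S' x) = rS S (oY P Q x) := by
  unfold rS
  simp only [map_sub, h.Ya, h.YD, h.YE]

theorem rS_sub (x y : W V) : rS S (x - y) = rS S x - rS S y := by
  unfold rS
  simp only [map_sub]
  abel

/-- the cycle `c_u` -/
def cc (S : SL V) (u : W V) : W3 V := (0, ok u, oz S u)

theorem Y3_cc (h : OpsY S' S P Q) (u : W V') : Y3 P Q (cc S' u) = cc S (oY P Q u) := by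
  unfold cc
  rw [Y3_apply]
  refine Prod.ext ?_ (Prod.ext ?_ ?_)
  · exact map_zero _
  · exact h.Yk u
  · exact h.Yz u

theorem cc_zero : cc S (0 : W V) = 0 := by
  unfold cc
  rw [map_zero, map_zero]
  rfl

theorem dF_zero (x : W3 V × W3 V') : dF S S' P Q 0 x = (dC S 0 x.1 + Y3 P Q x.2, 0) := rfl

theorem dF_succ (k : ℕ) (x : W3 V × W3 V') :
    dF S S' P Q (k + 1) x = (dC S (k + 1) x.1 + Y3 P Q x.2, -dC S' k x.2) := rfl

theorem mem_zero (x : W3 V × W3 V') : x ∈ Fg V V' 0 ↔ x.1 ∈ Cg V 0 0 ∧ x.2 = 0 := Iff.rfl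

theorem mem_succ (k : ℕ) (x : W3 V × W3 V') :
    x ∈ Fg V V' (k + 1) ↔ x.1 ∈ Cg V 0 (k + 1) ∧ x.2 ∈ Cg V' (-3) k := Iff.rfl

theorem g_map (hG : S_GRD) (C : Cex S 0) (C' : Cex S' (-3)) (n : ℕ) (x : W3 V × W3 V')
    (hx : x ∈ Fg V V' (n + 1)) : dF S S' P Q n x ∈ Fg V V' n := by
  rw [mem_succ] at hx
  cases n with
  | zero =>
    rw [dF_zero, mem_zero]
    exact ⟨add_mem (C.map 0 _ hx.1) (Y3_mem' hG P Q 0 _ hx.2), rfl⟩
  | succ k =>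
    rw [dF_succ, mem_succ]
    exact ⟨add_mem (C.map _ _ hx.1) (Y3_mem' hG P Q _ _ hx.2), neg_mem (C'.map _ _ hx.2)⟩

theorem g_dd (h : OpsY S' S P Q) (C : Cex S 0) (C' : Cex S' (-3)) (n : ℕ) (x : W3 V × W3 V') :
    dF S S' P Q n (dF S S' P Q (n + 1) x) = 0 := by
  have key : ∀ k, dC S k (dC S (k + 1) x.1 + Y3 P Q x.2) + Y3 P Q (-dC S' k x.2) = 0 := by
    intro k
    rw [map_add, C.dd, map_neg, Y3_dC h, zero_add, add_neg_cancel]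
  cases n with
  | zero =>
    rw [dF_succ, dF_zero]
    exact Prod.ext (key 0) rfl
  | succ k =>
    rw [dF_succ, dF_succ]
    refine Prod.ext (key (k + 1)) ?_
    show -dC S' k (-dC S' (k + 1) x.2) = 0
    rw [map_neg, C'.dd, neg_zero, neg_zero]

/-- assembling a primitive -/
theorem g_prim (k : ℕ) (x : W3 V × W3 V') (y : W3 V) (y' : W3 V') (hy : y ∈ Cg V 0 (k + 2))
    (hy' : y' ∈ Cg V' (-3) (k + 1)) (h1 : dC S' k y' = x.2)
    (h2 : dC S (k + 1) y = x.1 + Y3 P Q y') :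
    ∃ z ∈ Fg V V' (k + 2), dF S S' P Q (k + 1) z = x := by
  refine ⟨(y, -y'), (mem_succ _ _).2 ⟨hy, neg_mem hy'⟩, ?_⟩
  rw [dF_succ]
  refine Prod.ext ?_ ?_
  · show dC S (k + 1) y + Y3 P Q (-y') = x.1
    rw [map_neg, h2]
    abel
  · show -dC S' k (-y') = x.2
    rw [map_neg, neg_neg, h1]

theorem step (h : OpsY S' S P Q) (k : ℕ) (x : W3 V) (y' : W3 V')
    (h2 : dC S k x + Y3 P Q (dC S' k y') = 0) : dC S k (x + Y3 P Q y') = 0 := by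
  rw [map_add, ← Y3_dC h, h2]

theorem cast0 {V : Type} [AddCommGroup V] [Module ℚ V] {g : ℤ} {x : W V}
    (hx : x ∈ Wg V ((0 : ℕ) : ZMod 2) g) : x ∈ Wg V 0 g := by
  rwa [Nat.cast_zero] at hx

theorem cast2 {V : Type} [AddCommGroup V] [Module ℚ V] {g : ℤ} {x : W V}
    (hx : x ∈ Wg V ((2 : ℕ) : ZMod 2) g) : x ∈ Wg V 0 g := by
  have : ((2 : ℕ) : ZMod 2) = 0 := by decide
  rwa [this] at hx

theorem deg0 {V : Type} [AddCommGroup V] [Module ℚ V] {γ : ℤ} {x : W3 V} (hx : x ∈ Cg V γ 0) :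
    x = (x.1, 0, 0) ∧ x.1 ∈ Wg V 0 γ := by
  obtain ⟨h1, ⟨-, h3⟩, ⟨-, h5⟩⟩ := hx
  refine ⟨Prod.ext rfl (Prod.ext ?_ ?_), cast0 h1⟩
  · exact h3 rfl
  · exact h5 (by norm_num)

theorem mem_deg0 {V : Type} [AddCommGroup V] [Module ℚ V] {γ : ℤ} {x : W V} (hx : x ∈ Wg V 0 γ) :
    ((x, 0, 0) : W3 V) ∈ Cg V γ 0 := by
  refine ⟨?_, ⟨zero_mem _, fun _ => rfl⟩, ⟨zero_mem _, fun _ => rfl⟩⟩
  show x ∈ Wg V ((0 : ℕ) : ZMod 2) γ
  rwa [Nat.cast_zero]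

end general

theorem tau_eq (m : ℕ) (x : Zm (m + 2)) :
    tau m x = ((0 : W3 (Vm m)), cc (SV (m + 1)) (oY (vP (m + 1)) (vQ (m + 1)) x.1.1)) := by
  refine Prod.ext ?_ (Prod.ext ?_ (Prod.ext ?_ ?_))
  · rfl
  · rfl
  · show (tau m x).2.2.1 = ok (oY (vP (m + 1)) (vQ (m + 1)) x.1.1)
    unfold tau
    simp only [LinearMap.prod_apply, Function.prod, LinearMap.comp_apply, LinearMap.fst_apply]
    exact congrArg (DFunLike.coe ok) rfl
  · show (tau m x).2.2.2 = oz (SV (m + 1)) (oY (vP (m + 1)) (vQ (m + 1)) x.1.1)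
    unfold tau
    simp only [LinearMap.prod_apply, Function.prod, LinearMap.comp_apply, LinearMap.fst_apply]
    exact congrArg (DFunLike.coe (oz (SV (m + 1)))) rfl

theorem main (hVS : S_VS) (hY : S_OPSY) (hG : S_GRD) (hC : S_CEX) (hK : S_KOS) : S_FEX := by
  have O : ∀ m, OpsY (SV (m + 1)) (SV m) (vP m) (vQ m) := fun m =>
    hY.1 _ _ _ _ _ _ (hVS.yrel m)
  have YY : ∀ m (x : W (Vm (m + 2))), oY (vP m) (vQ m) (oY (vP (m + 1)) (vQ (m + 1)) x) = 0 :=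
    fun m x => hY.2 _ _ _ _ _ _ _ (hVS.pq m) x
  have C : ∀ m, Cex (SV m) 0 := fun m => hC _ _ _
  have C' : ∀ m, Cex (SV (m + 1)) (-3) := fun m => hC _ _ _
  refine ⟨fun m n x hx => g_map hG (C m) (C' m) n x hx, fun m n x _ => g_dd (O m) (C m) (C' m) n x,
    ?_, ?_, ?_, ?_⟩
  · -- ex
    intro m n x hn hx hd
    match n, hn with
    | 0, _ =>
      obtain ⟨hx1, hx2⟩ := hx
      have e : dC (SV m) 0 x.1 + Y3 (vP m) (vQ m) x.2 = 0 := congrArg Prod.fst hd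
      obtain ⟨e2, hw⟩ := deg0 hx2
      have hq : qS (SV m) (oY (vP m) (vQ m) x.2.1) = 0 := by
        rw [(C m).q_iff]
        · refine ⟨-x.1, neg_mem hx1, ?_⟩
          rw [map_neg, eq_neg_of_add_eq_zero_left e, neg_neg, e2, Y3_apply]
          refine Prod.ext rfl (Prod.ext ?_ ?_) <;> exact map_zero _
        · exact (hG _).Y _ _ _ _ _ _ hw
      rw [← Y_q (O m)] at hq
      have hq' := hK.K1 m _ ((C' m).q_kr _ hw) hq
      obtain ⟨y', hy', hy2⟩ := ((C' m).q_iff _ hw).1 hq'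
      rw [← e2] at hy2
      obtain ⟨y, hy, hy3⟩ := (C m).ex 0 (by norm_num) (x.1 + Y3 (vP m) (vQ m) y')
        (add_mem hx1 (Y3_mem' hG _ _ _ _ hy')) (step (O m) 0 _ _ (by rw [hy2, e]))
      exact g_prim 0 x y y' hy hy' hy2 hy3
    | 1, _ =>
      obtain ⟨hx1, hx2⟩ := hx
      have e : dC (SV m) 1 x.1 + Y3 (vP m) (vQ m) x.2 = 0 := congrArg Prod.fst hd
      have e' : -dC (SV (m + 1)) 0 x.2 = 0 := congrArg Prod.snd hd
      obtain ⟨y', hy', hy2⟩ := (C' m).ex 0 (by norm_num) x.2 hx2 (neg_eq_zero.1 e')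
      have c1 : dC (SV m) 1 (x.1 + Y3 (vP m) (vQ m) y') = 0 := step (O m) 1 _ _ (by rw [hy2, e])
      have m1 : x.1 + Y3 (vP m) (vQ m) y' ∈ Cg (Vm m) 0 2 := add_mem hx1 (Y3_mem' hG _ _ _ _ hy')
      have kr := (C m).r_kr _ (cast2 m1.2.2.1)
      obtain ⟨v, hv, hv2⟩ := hK.K4 m _ kr
      have cm : cc (SV (m + 1)) v ∈ Cg (Vm (m + 1)) (-3) 2 := (C' m).cyc_mem v hv.1
      have c2 : dC (SV (m + 1)) 1 (cc (SV (m + 1)) v) = 0 := (C' m).cyc v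
      have hy4 : dC (SV (m + 1)) 1 (y' - cc (SV (m + 1)) v) = x.2 := by
        rw [map_sub, c2, hy2, sub_zero]
      have m2 : x.1 + Y3 (vP m) (vQ m) (y' - cc (SV (m + 1)) v) ∈ Cg (Vm m) 0 2 :=
        add_mem hx1 (Y3_mem' hG _ _ _ _ (sub_mem hy' cm))
      obtain ⟨y, hy, hy3⟩ := ((C m).r_iff (x.1 + Y3 (vP m) (vQ m) (y' - cc (SV (m + 1)) v)) m2
        (step (O m) 1 _ _ (by rw [hy4, e]))).1 (by
          have : (x.1 + Y3 (vP m) (vQ m) (y' - cc (SV (m + 1)) v)).2.2 =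
              (x.1 + Y3 (vP m) (vQ m) y').2.2 - oz (SV m) (oY (vP m) (vQ m) v) := by
            rw [map_sub, Y3_cc (O m), ← add_sub_assoc]
            rfl
          rw [this, rS_sub, hv2, (C m).r_cyc _ kr, sub_self])
      exact g_prim 1 x y _ hy (sub_mem hy' cm) hy4 hy3
    | k + 3, _ =>
      obtain ⟨hx1, hx2⟩ := hx
      have e : dC (SV m) (k + 3) x.1 + Y3 (vP m) (vQ m) x.2 = 0 := congrArg Prod.fst hd
      have e' : -dC (SV (m + 1)) (k + 2) x.2 = 0 := congrArg Prod.snd hd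
      obtain ⟨y', hy', hy2⟩ := (C' m).ex (k + 2) (by omega) x.2 hx2 (neg_eq_zero.1 e')
      obtain ⟨y, hy, hy3⟩ := (C m).ex (k + 3) (by omega) (x.1 + Y3 (vP m) (vQ m) y')
        (add_mem hx1 (Y3_mem' hG _ _ _ _ hy')) (step (O m) _ _ _ (by rw [hy2, e]))
      exact g_prim (k + 3) x y y' hy hy' hy2 hy3
  · -- tmem
    intro m x hx
    obtain ⟨hx1, hx2⟩ := hx
    obtain ⟨e2, hw⟩ := deg0 hx1
    have ht : oY (vP (m + 1)) (vQ (m + 1)) x.1.1 ∈ Wg (Vm (m + 1)) 0 3 :=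
      (hG _).Y _ _ _ _ _ _ hw
    rw [tau_eq]
    refine ⟨⟨zero_mem _, (C' m).cyc_mem _ ht⟩, ?_⟩
    show (dC (SV m) 2 0 + Y3 (vP m) (vQ m) (cc (SV (m + 1)) (oY (vP (m + 1)) (vQ (m + 1)) x.1.1)),
      -dC (SV (m + 1)) 1 (cc (SV (m + 1)) (oY (vP (m + 1)) (vQ (m + 1)) x.1.1))) = 0
    rw [map_zero, Y3_cc (O m), YY, cc_zero, zero_add, show dC (SV (m + 1)) 1
      (cc (SV (m + 1)) (oY (vP (m + 1)) (vQ (m + 1)) x.1.1)) = 0 from (C' m).cyc _, neg_zero]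
    rfl
  · -- tex
    intro m x hx hd
    obtain ⟨hx1, hx2⟩ := hx
    have e : dC (SV m) 2 x.1 + Y3 (vP m) (vQ m) x.2 = 0 := congrArg Prod.fst hd
    have e' : dC (SV (m + 1)) 1 x.2 = 0 := neg_eq_zero.1 (congrArg Prod.snd hd)
    have kr := (C' m).r_kr _ (cast2 hx2.2.2.1)
    have hu : oY (vP m) (vQ m) (rS (SV (m + 1)) x.2.2.2) = 0 := by
      rw [Y_r (O m)]
      refine ((C m).r_iff (Y3 (vP m) (vQ m) x.2) (Y3_mem' hG _ _ _ _ hx2) ?_).2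
        ⟨-x.1, neg_mem hx1, ?_⟩
      · rw [← Y3_dC (O m), e', map_zero]
      · rw [map_neg, eq_neg_of_add_eq_zero_left e, neg_neg]
    obtain ⟨w, hw, hw2⟩ := hK.K3 m _ kr hu
    set u := rS (SV (m + 1)) x.2.2.2 with hudef
    have cm : cc (SV (m + 1)) u ∈ Cg (Vm (m + 1)) (-3) 2 := (C' m).cyc_mem u kr.1
    have c2 : dC (SV (m + 1)) 1 (cc (SV (m + 1)) u) = 0 := (C' m).cyc u
    obtain ⟨y', hy', hy2⟩ := ((C' m).r_iff (x.2 - cc (SV (m + 1)) u) (sub_mem hx2 cm)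
      (by rw [map_sub, e', c2, sub_zero])).1 (by
        show rS (SV (m + 1)) (x.2.2.2 - oz (SV (m + 1)) u) = 0
        rw [rS_sub, (C' m).r_cyc _ kr, sub_self])
    have hY0 : Y3 (vP m) (vQ m) (cc (SV (m + 1)) u) = 0 := by
      rw [Y3_cc (O m), hu, cc_zero]
    obtain ⟨y, hy, hy3⟩ := (C m).ex 2 (by norm_num) (x.1 + Y3 (vP m) (vQ m) y')
      (add_mem hx1 (Y3_mem' hG _ _ _ _ hy')) (step (O m) _ _ _ (by
        rw [hy2, map_sub, hY0, sub_zero, e]))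
    refine ⟨((w, 0, 0), 0), ⟨mem_deg0 hw.1, rfl⟩, (y, -y'), ⟨hy, neg_mem hy'⟩, ?_⟩
    rw [tau_eq]
    show x = ((0 : W3 (Vm m)), cc (SV (m + 1)) (oY (vP (m + 1)) (vQ (m + 1)) w)) + _
    rw [hw2]
    refine Prod.ext ?_ ?_
    · show x.1 = 0 + (dC (SV m) 3 y + Y3 (vP m) (vQ m) (-y'))
      rw [map_neg, hy3]
      abel
    · show x.2 = cc (SV (m + 1)) u + -dC (SV (m + 1)) 2 (-y')
      rw [map_neg, neg_neg, hy2]
      abel
  · -- tiff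
    intro m x hx
    obtain ⟨hx1, hx2⟩ := hx
    obtain ⟨e2, hw⟩ := deg0 hx1
    set w := x.1.1 with hwdef
    have ht : oY (vP (m + 1)) (vQ (m + 1)) w ∈ Wg (Vm (m + 1)) 0 3 :=
      (hG _).Y _ _ _ _ _ _ hw
    have et : tau m x = ((0 : W3 (Vm m)),
        cc (SV (m + 1)) (oY (vP (m + 1)) (vQ (m + 1)) w)) := tau_eq m x
    have cm : cc (SV (m + 1)) (oY (vP (m + 1)) (vQ (m + 1)) w) ∈ Cg (Vm (m + 1)) (-3) 2 :=
      (C' m).cyc_mem _ ht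
    have c2 : dC (SV (m + 1)) 1 (cc (SV (m + 1)) (oY (vP (m + 1)) (vQ (m + 1)) w)) = 0 :=
      (C' m).cyc _
    rw [et]
    constructor
    · rintro ⟨b, ⟨hb1, hb2⟩, hb⟩
      have hb' : -dC (SV (m + 1)) 2 b.2 =
        cc (SV (m + 1)) (oY (vP (m + 1)) (vQ (m + 1)) w) := congrArg Prod.snd hb
      have h1 := ((C' m).r_iff _ cm c2).2 ⟨-b.2, neg_mem hb2, by rw [map_neg, hb']⟩
      have h2 : qS (SV (m + 1)) (oY (vP (m + 1)) (vQ (m + 1)) w) = 0 := by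
        rw [← (C' m).rz]
        exact h1
      rw [← Y_q (O (m + 1))] at h2
      obtain ⟨v, hv, hv2⟩ := hK.K2 (m + 1) _ ((C (m + 2)).q_kr _ hw) h2
      obtain ⟨y, hy, hy2⟩ := (C (m + 2)).q_mod _ hw
      refine ⟨(y, (v, 0, 0)), ⟨hy, mem_deg0 hv.1⟩, ?_⟩
      refine Prod.ext ?_ hx2.symm
      show dC (SV (m + 2)) 0 y + Y3 (vP (m + 2)) (vQ (m + 2)) (v, 0, 0) = x.1
      rw [hy2, Y3_apply, e2]
      refine Prod.ext ?_ (Prod.ext ?_ ?_)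
      · show w - qS (SV (m + 2)) w + oY (vP (m + 2)) (vQ (m + 2)) v = w
        rw [hv2]
        abel
      · show (0 : W (Vm (m + 2))) + oY (vP (m + 2)) (vQ (m + 2)) 0 = 0
        rw [map_zero, add_zero]
      · show (0 : W (Vm (m + 2))) + oY (vP (m + 2)) (vQ (m + 2)) 0 = 0
        rw [map_zero, add_zero]
    · rintro ⟨y, ⟨hy1, hy2⟩, hy⟩
      have hy' : dC (SV (m + 2)) 0 y.1 + Y3 (vP (m + 2)) (vQ (m + 2)) y.2 = x.1 :=
        congrArg Prod.fst hy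
      have h1 : Y3 (vP (m + 1)) (vQ (m + 1)) (Y3 (vP (m + 2)) (vQ (m + 2)) y.2) = 0 := by
        rw [Y3_apply, Y3_apply]
        exact Prod.ext (YY _ _) (Prod.ext (YY _ _) (YY _ _))
      have h2 : qS (SV (m + 1)) (oY (vP (m + 1)) (vQ (m + 1)) w) = 0 := by
        rw [(hC _ (SV (m + 1)) 3).q_iff _ ht]
        refine ⟨Y3 (vP (m + 1)) (vQ (m + 1)) y.1, Y3_mem hG _ _ 0 _ _ hy1, ?_⟩
        rw [← Y3_dC (O (m + 1)), eq_sub_of_add_eq hy', map_sub, h1, sub_zero, e2, Y3_apply]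
        refine Prod.ext rfl (Prod.ext ?_ ?_) <;> exact map_zero _
      rw [← (C' m).rz] at h2
      obtain ⟨y', hy', hy2⟩ := ((C' m).r_iff _ cm c2).1 h2
      obtain ⟨b, hb, hb2⟩ := (C m).ex 2 (by norm_num) (Y3 (vP m) (vQ m) y')
        (Y3_mem' hG _ _ _ _ hy') (by rw [← Y3_dC (O m), hy2, Y3_cc (O m), YY, cc_zero])
      refine ⟨(b, -y'), ⟨hb, neg_mem hy'⟩, Prod.ext ?_ ?_⟩
      · show dC (SV m) 3 b + Y3 (vP m) (vQ m) (-y') = 0
        rw [map_neg, hb2, add_neg_cancel]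
      · show -dC (SV (m + 1)) 2 (-y') = _
        rw [map_neg, neg_neg, hy2]

end Run7.h329.Nak.FEX
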