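import Pool.Agent.Run7.h433.Nak.Iface
import Pool.Agent.W881.GamExt

/-! Piece IND of the project on the Nakayama conjecture (helper433): abstract dimension shifting. -/

set_option autoImplicit false

open CategoryTheory W881.GS

namespace Run7.h329.Nak.IND

section One

variable {R : Type} [Ring R] {Z : Type} [AddCommGroup Z] [Module R Z]
  (F : ℕ → Submodule R Z) (d : ℕ → (Z →ₗ[R] Z)) {X : Type} [AddCommGroup X] [Module R X]

/-- the boundaries in degree `n` -/
def B (n : ℕ) : Submodule R ↥(F n) := ((F (n + 1)).map (d n)).comap (F n).subtype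

theorem mem_B {n : ℕ} {x : ↥(F n)} : x ∈ B F d n ↔ ∃ y ∈ F (n + 1), d n y = x.1 := Iff.rfl

variable (hP : ∀ n, Module.Projective R ↥(F n))
  (hD : ∀ n x, x ∈ F (n + 1) → d n x ∈ F n)
  (hDD : ∀ n x, x ∈ F (n + 2) → d n (d (n + 1) x) = 0)
  (hE : ∀ n x, n ≠ 2 → x ∈ F (n + 1) → d n x = 0 → ∃ y ∈ F (n + 2), d (n + 1) y = x)
  (hH : ∀ n (f : ↥(F (n + 1)) →ₗ[R] X),
    (∀ y, y ∈ F (n + 2) → ∀ hd : d (n + 1) y ∈ F (n + 1), f ⟨d (n + 1) y, hd⟩ = 0) →
    ∃ g : ↥(F n) →ₗ[R] X, ∀ y (hy : y ∈ F (n + 1)) (hd : d n y ∈ F n),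
      f ⟨y, hy⟩ = g ⟨d n y, hd⟩)

/-- the differential as a surjection onto the boundaries -/
def dm (n : ℕ) : ↥(F (n + 1)) →ₗ[R] ↥(B F d n) where
  toFun x := ⟨⟨d n x.1, hD n x.1 x.2⟩, x.1, x.2, rfl⟩
  map_add' x y := by
    apply Subtype.ext
    apply Subtype.ext
    exact map_add (d n) x.1 y.1
  map_smul' r x := by
    apply Subtype.ext
    apply Subtype.ext
    exact map_smul (d n) r x.1

theorem dm_surj (n : ℕ) : Function.Surjective (dm F d hD n) := by
  rintro ⟨⟨z, hz⟩, y, hy, hyz⟩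
  refine ⟨⟨y, hy⟩, ?_⟩
  apply Subtype.ext
  apply Subtype.ext
  exact hyz

theorem dm_eq_zero {n : ℕ} {x : ↥(F (n + 1))} : dm F d hD n x = 0 ↔ d n x.1 = 0 := by
  constructor
  · intro h
    exact congrArg (fun t : ↥(B F d n) => ((t : ↥(F n)) : Z)) h
  · intro h
    apply Subtype.ext
    apply Subtype.ext
    exact h

theorem ses (n : ℕ) : Function.Exact (B F d n).subtype (B F d n).mkQ := by
  rw [LinearMap.exact_iff, Submodule.ker_mkQ, Submodule.range_subtype]

include hP hD hDD hH in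
/-- the first `Ext` of a cokernel vanishes -/
theorem evA (n : ℕ) : EV R (↥(F n) ⧸ B F d n) X 1 := by
  have := hP n
  refine ev_one_of_extend (B F d n).subtype (B F d n).mkQ (ses F d n)
    (B F d n).injective_subtype (B F d n).mkQ_surjective (ev_proj 0) ?_
  intro g
  obtain ⟨g', hg'⟩ := hH n (g ∘ₗ dm F d hD n) (by
    intro y hy hd
    have : dm F d hD n ⟨d (n + 1) y, hd⟩ = 0 := (dm_eq_zero F d hD).2 (hDD n y hy)
    rw [LinearMap.comp_apply, this, map_zero])
  refine ⟨g', ?_⟩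
  ext b
  obtain ⟨y, rfl⟩ := dm_surj F d hD n b
  exact (hg' y.1 y.2 (hD n y.1 y.2)).symm

include hP in
theorem evB {n m : ℕ} (h : EV R ↥(B F d n) X m) : EV R (↥(F n) ⧸ B F d n) X (m + 1) := by
  have := hP n
  exact ev_right (B F d n).subtype (B F d n).mkQ (ses F d n)
    (B F d n).injective_subtype (B F d n).mkQ_surjective h (ev_proj m)

include hD hDD hE in
theorem evBC {n m : ℕ} (hn : n ≠ 2) (h : EV R (↥(F (n + 1)) ⧸ B F d (n + 1)) X m) :
    EV R ↥(B F d n) X m := by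
  have hk : LinearMap.ker (dm F d hD n) = B F d (n + 1) := by
    ext x
    rw [LinearMap.mem_ker, dm_eq_zero, mem_B]
    constructor
    · intro hx
      exact hE n x.1 hn x.2 hx
    · rintro ⟨y, hy, hyx⟩
      rw [← hyx]
      exact hDD n y hy
  rw [← hk] at h
  exact ev_of_equiv ((dm F d hD n).quotKerEquivOfSurjective (dm_surj F d hD n)) h

include hP hD hDD hE hH in
theorem evC (m : ℕ) : ∀ n, 3 ≤ n → EV R (↥(F n) ⧸ B F d n) X (m + 1) := by
  induction m with
  | zero => exact fun n _ => evA F d hP hD hDD hH n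
  | succ m ih =>
    intro n hn
    exact evB F d hP (evBC F d hD hDD hE (by omega) (ih (n + 1) (by omega)))

end One

section Two

variable {R : Type} [Ring R] {Z Z' : Type} [AddCommGroup Z] [Module R Z]
  [AddCommGroup Z'] [Module R Z']
  (F : ℕ → Submodule R Z) (d : ℕ → (Z →ₗ[R] Z))
  (F' : ℕ → Submodule R Z') (d' : ℕ → (Z' →ₗ[R] Z')) (tau : Z' →ₗ[R] Z)
  {X : Type} [AddCommGroup X] [Module R X]
  (hD : ∀ n x, x ∈ F (n + 1) → d n x ∈ F n)
  (hDD : ∀ n x, x ∈ F (n + 2) → d n (d (n + 1) x) = 0)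
  (hT : ∀ x, x ∈ F' 0 → tau x ∈ F 3 ∧ d 2 (tau x) = 0)
  (hS : ∀ x, x ∈ F 3 → d 2 x = 0 → ∃ x' ∈ F' 0, ∃ y ∈ F 4, x = tau x' + d 3 y)
  (hI : ∀ x, x ∈ F' 0 → ((∃ y ∈ F 4, d 3 y = tau x) ↔ ∃ y ∈ F' 1, d' 0 y = x))

/-- `tau` as a map `F' 0 -> F 3` -/
def tm : ↥(F' 0) →ₗ[R] ↥(F 3) where
  toFun x := ⟨tau x.1, (hT x.1 x.2).1⟩
  map_add' x y := Subtype.ext (map_add tau x.1 y.1)
  map_smul' r x := Subtype.ext (map_smul tau r x.1)

include hI in
theorem tm_le : B F' d' 0 ≤ LinearMap.ker ((B F d 3).mkQ ∘ₗ tm F d F' tau hT) := by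
  intro x hx
  rw [LinearMap.mem_ker, LinearMap.comp_apply, Submodule.mkQ_apply,
    Submodule.Quotient.mk_eq_zero, mem_B]
  exact (hI x.1 x.2).2 hx

include hDD in
theorem dm_le : B F d 3 ≤ LinearMap.ker (dm F d hD 2) := by
  rintro x ⟨y, hy, hyx⟩
  rw [LinearMap.mem_ker, dm_eq_zero]
  have hyx' : d 3 y = x.1 := hyx
  rw [← hyx']
  exact hDD 2 y hy

include hD hDD hT hS hI in
theorem evD {m : ℕ} (h0 : EV R (↥(F' 0) ⧸ B F' d' 0) X m)
    (h3 : EV R (↥(F 3) ⧸ B F d 3) X (m + 1)) : EV R ↥(B F d 2) X (m + 1) := by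
  let i : (↥(F' 0) ⧸ B F' d' 0) →ₗ[R] (↥(F 3) ⧸ B F d 3) :=
    (B F' d' 0).liftQ ((B F d 3).mkQ ∘ₗ tm F d F' tau hT) (tm_le F d F' d' tau hT hI)
  let p : (↥(F 3) ⧸ B F d 3) →ₗ[R] ↥(B F d 2) :=
    (B F d 3).liftQ (dm F d hD 2) (dm_le F d hD hDD)
  have hi : ∀ x, i (Submodule.Quotient.mk x) = Submodule.Quotient.mk (tm F d F' tau hT x) :=
    fun x => rfl
  have hp : ∀ x, p (Submodule.Quotient.mk x) = dm F d hD 2 x := fun x => rfl
  refine ev_right i p ?_ ?_ ?_ h0 h3
  · intro q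
    obtain ⟨x, rfl⟩ := Submodule.Quotient.mk_surjective _ q
    rw [hp, dm_eq_zero]
    constructor
    · intro hx
      obtain ⟨x', hx', y, hy, hxy⟩ := hS x.1 x.2 hx
      refine ⟨Submodule.Quotient.mk ⟨x', hx'⟩, ?_⟩
      rw [hi]
      symm
      rw [Submodule.Quotient.eq, mem_B]
      refine ⟨y, hy, ?_⟩
      change d 3 y = x.1 - tau x'
      rw [hxy]
      abel
    · rintro ⟨q', hq'⟩
      obtain ⟨x', rfl⟩ := Submodule.Quotient.mk_surjective _ q'
      rw [hi] at hq'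
      rw [Submodule.Quotient.eq, mem_B] at hq'
      obtain ⟨y, hy, hyx⟩ := hq'
      have hyx' : d 3 y = tau x'.1 - x.1 := hyx
      have h1 : x.1 = tau x'.1 - d 3 y := by rw [hyx']; abel
      rw [h1, map_sub, (hT x'.1 x'.2).2, hDD 2 y hy, sub_zero]
  · rw [← LinearMap.ker_eq_bot]
    rw [eq_bot_iff]
    intro q hq
    obtain ⟨x, rfl⟩ := Submodule.Quotient.mk_surjective _ q
    rw [LinearMap.mem_ker, hi, Submodule.Quotient.mk_eq_zero, mem_B] at hq
    rw [Submodule.mem_bot, Submodule.Quotient.mk_eq_zero, mem_B]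
    exact (hI x.1 x.2).1 hq
  · intro b
    obtain ⟨x, rfl⟩ := dm_surj F d hD 2 b
    exact ⟨Submodule.Quotient.mk x, hp x⟩

end Two

theorem main : Run7.h433.Nak.S_IND := by
  intro R _ Z _ _ F d tau X _ _ hP hD hDD hE hT hS hI hH hZ
  have key : ∀ m k, EV R (↥(F k 0) ⧸ B (F k) (d k) 0) X (m + 1) := by
    intro m
    induction m using Nat.strong_induction_on with
    | _ m ih =>
      intro k
      rcases m with _ | m
      · exact evA (F k) (d k) (hP k) (hD k) (hDD k) (hH k) 0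
      · refine evB (F k) (d k) (hP k) (evBC (F k) (d k) (hD k) (hDD k) (hE k) (by omega) ?_)
        rcases m with _ | m
        · exact evA (F k) (d k) (hP k) (hD k) (hDD k) (hH k) 1
        · refine evB (F k) (d k) (hP k) (evBC (F k) (d k) (hD k) (hDD k) (hE k) (by omega) ?_)
          rcases m with _ | m
          · exact evA (F k) (d k) (hP k) (hD k) (hDD k) (hH k) 2
          · refine evB (F k) (d k) (hP k) (evD (F k) (d k) (F (k + 2)) (d (k + 2)) (tau k)
              (hD k) (hDD k) (hT k) (hS k) (hI k) ?_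
              (evC (F k) (d k) (hP k) (hD k) (hDD k) (hE k) (hH k) m 3 le_rfl))
            rcases m with _ | m
            · rw [ev_zero_iff]
              intro f
              have h := hZ (k + 1) (f ∘ₗ (B (F (k + 2)) (d (k + 2)) 0).mkQ) (by
                intro y hy hd
                rw [LinearMap.comp_apply, Submodule.mkQ_apply]
                have : (Submodule.Quotient.mk ⟨d (k + 1 + 1) 0 y, hd⟩ :
                    ↥(F (k + 2) 0) ⧸ B (F (k + 2)) (d (k + 2)) 0) = 0 := by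
                  rw [Submodule.Quotient.mk_eq_zero, mem_B]
                  exact ⟨y, hy, rfl⟩
                rw [this, map_zero])
              apply LinearMap.ext
              intro q
              obtain ⟨x, rfl⟩ := Submodule.Quotient.mk_surjective _ q
              exact LinearMap.congr_fun h x
            · exact ih m (by omega) (k + 2)
  intro k i
  exact key i k

end Run7.h329.Nak.IND
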